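import Pool.Agent.H38.MB.CoreOf
import Pool.Agent.H4.MB.Sharp

/-!
# The mobility of the class of a line in `P³` is one

Definitions (namespace `MbD`, file `Pool/Agent/H38/MB/Defs.lean`): `Curve`, `Cycle`, `degree`,
`OnCurve`, `InSupport`, `Gen b m` (through `b` general points of `P³` there is an effective
one-cycle of degree `m`), `mc m` (the mobility count of `m` times the class of a line), `mob`; file
`Pool/Agent/H4/MB/CI.lean`: `IsCI F G k` (complete intersection of two surfaces of degree `k`),
`GenCI b k` (`b` general points lie on a complete intersection of two surfaces of degree `k`).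

Parts of the proof (folders `Pool/Agent/H*/MB`): linear algebra of pairs of subspaces over a finite
field extension (Part I), the generic plane section of the curve and the derivations of the
coefficient field (Part II), summation over the filtration (Part III), generic points, reduction to
irreducible curves and the lower bound from complete intersections (Part IV).
-/

namespace Pool.Agent.Results.MP_db1738_ag.MobilityOneSharp

open MbD MvPolynomial Filter Topology

/-- For every `m` the mobility count `mc m` is the largest number `b` such that `b` general points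
of `P³` lie on an effective one-cycle of degree `m`, and it is `m ^ (3/2) / 6` up to an error of
exact order `m`; the sequence `6 mc(m) / m^(3/2)` converges to `1`; the mobility of the class of a
line is `1`.  Complete intersections attain it: the common zeros of two coprime forms of degree `k`
are the support of an effective cycle of degree at most `k ^ 2`, the largest number of general
points on such a complete intersection is `(k + 3 choose 3) - 2`, and six times this number divided
by `(k ^ 2) ^ (3/2)` tends to `1`. -/
theorem result :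
    (∀ m : ℕ, IsGreatest {b : ℕ | Gen b m} (mc m)) ∧
    Tendsto (fun m : ℕ => 6 * (mc m : ℝ) / (m : ℝ) ^ (3 / 2 : ℝ)) atTop (𝓝 1) ∧
    mob = 1 ∧
    (∀ m : ℕ, (m : ℝ) ^ (3 / 2 : ℝ) / 6 + (m : ℝ) / 2 + √(m : ℝ) / 3 - 2 ≤ (mc m : ℝ) ∧
      (mc m : ℝ) ≤ (m : ℝ) ^ (3 / 2 : ℝ) / 6 + 823 * (m : ℝ)) ∧
    (∀ (k : ℕ) (F G : S), IsCI F G k → ∃ Z : Cycle, degree Z ≤ k ^ 2 ∧
      ∀ q : Fin 4 → ℂ, InSupport q Z ↔ eval q F = 0 ∧ eval q G = 0) ∧
    (∀ k : ℕ, 1 ≤ k → IsGreatest {b : ℕ | GenCI b k} ((k + 3).choose 3 - 2)) ∧
    Tendsto (fun k : ℕ => 6 * (((k + 3).choose 3 - 2 : ℕ) : ℝ) / ((k ^ 2 : ℕ) : ℝ) ^ (3 / 2 : ℝ))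
      atTop (𝓝 1) :=
  ⟨mobility_one.1, mobility_one.2.1, mobility_one.2.2,
    fun m => ⟨Pool.Agent.H4.MB.mc_lower core (by norm_num) m,
      Pool.Agent.H4.MB.mc_upper core (by norm_num) m⟩,
    fun _ _ _ h => Pool.Agent.H4.MB.ci_cycle h,
    fun _ hk => Pool.Agent.H4.MB.isGreatest_ci hk,
    Pool.Agent.H4.MB.ci_limit⟩

end Pool.Agent.Results.MP_db1738_ag.MobilityOneSharp
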